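import Pool.Agent.Work.MP_70e905_nt.Pol.Final

/-!
# PK.F.Core : four clusters built on four multiples

`e 0 < e 1 < e 2 < e 3`, `primorial (4 L) ∣ W`; the numbers `e i * B` miss a class modulo 2 and a
class modulo 3. If `y t = y s + (e t.1 - e s.1) * m s t` for all `s t : Fin 4 × Fin L` with
`s.1 < t.1`, then the numbers `e s.1 * B + W * y s` form four clusters of an admissible set, with
the cross differences `(e t.1 - e s.1) * (B + W * m s t)`.
-/

set_option autoImplicit false

namespace PoolPK

open Finset PoolQ4 PoolPol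

theorem exists_missing {p : ℕ} (H : Finset ℕ) (hc : (H.image (fun h => h % p)).card < p) :
    ∃ v : ℕ, ∀ h ∈ H, ¬ p ∣ v + h := by
  classical
  have hp : 0 < p := lt_of_le_of_lt (Nat.zero_le _) hc
  have h1 : ((H.image (fun h => h % p)).image (fun r => (p - r) % p)).card < (range p).card := by
    rw [card_range]
    exact lt_of_le_of_lt card_image_le hc
  obtain ⟨v, hv, hv'⟩ := Finset.exists_mem_notMem_of_card_lt_card h1
  refine ⟨v, fun h hh hd => hv' ?_⟩
  rw [mem_image]
  refine ⟨h % p, mem_image_of_mem _ hh, ?_⟩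
  have h2 : h % p < p := Nat.mod_lt _ hp
  have h3 : v < p := mem_range.1 hv
  have h4 : p ∣ v + h % p := by
    have h5 : v + h = v + h % p + p * (h / p) := by
      have := Nat.mod_add_div h p
      omega
    rw [h5] at hd
    exact (Nat.dvd_add_left (Dvd.intro _ rfl)).1 hd
  obtain ⟨c, hc'⟩ := h4
  rcases Nat.lt_or_ge c 1 with hc1 | hc1
  · have : c = 0 := by omega
    subst this
    have h6 : v = 0 ∧ h % p = 0 := by omega
    rw [h6.1, h6.2, Nat.sub_zero, Nat.mod_self]
  · rcases Nat.lt_or_ge c 2 with hc2 | hc2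
    · have : c = 1 := by omega
      subst this
      have h7 : p - h % p = v := by omega
      rw [h7, Nat.mod_eq_of_lt h3]
    · exfalso
      have : p * 2 ≤ p * c := Nat.mul_le_mul_left p hc2
      omega

theorem core {L : ℕ} {P : ℕ → Prop} (hP : CluP 3 L P) {e : Fin 4 → ℕ} (he : StrictMono e)
    {B W : ℕ} (hW0 : 0 < W) (hW : primorial (4 * L) ∣ W)
    (h2 : ∃ r : ℕ, ∀ i, ¬ 2 ∣ r + e i * B) (h3 : ∃ r : ℕ, ∀ i, ¬ 3 ∣ r + e i * B)
    (y : Fin 4 × Fin L → ℕ) (m : Fin 4 × Fin L → Fin 4 × Fin L → ℕ)
    (hm : ∀ s t : Fin 4 × Fin L, s.1 < t.1 → 0 < m s t)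
    (hy : ∀ s t : Fin 4 × Fin L, s.1 < t.1 → y t = y s + (e t.1 - e s.1) * m s t)
    (hinj : ∀ (i : Fin 4) (a b : Fin L), y (i, a) = y (i, b) → a = b) :
    ∃ s t : Fin 4 × Fin L, s.1 < t.1 ∧ P ((e t.1 - e s.1) * (B + W * m s t)) := by
  classical
  set h : Fin 4 × Fin L → ℕ := fun s => e s.1 * B + W * y s with hh
  have hdiff : ∀ s t : Fin 4 × Fin L, s.1 < t.1 → h t = h s +
      (e t.1 - e s.1) * (B + W * m s t) := by
    intro s t hst
    have h4 : e s.1 < e t.1 := he hst
    have h5 := hy s t hst
    obtain ⟨t', ht'⟩ : ∃ t', e t.1 = e s.1 + t' := ⟨e t.1 - e s.1, by omega⟩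
    have h6 : e t.1 - e s.1 = t' := by omega
    simp only [hh]
    rw [h6] at h5 ⊢
    rw [ht', h5]
    ring
  have hlt : ∀ s t : Fin 4 × Fin L, s.1 < t.1 → h s < h t := by
    intro s t hst
    rw [hdiff s t hst]
    have h4 : e s.1 < e t.1 := he hst
    have h7 : 0 < W * m s t := Nat.mul_pos hW0 (hm s t hst)
    have h8 : 0 < (e t.1 - e s.1) * (B + W * m s t) := Nat.mul_pos (by omega) (by omega)
    omega
  have hinj' : Function.Injective h := by
    intro s t hst
    rcases lt_trichotomy s.1 t.1 with h4 | h4 | h4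
    · have := hlt s t h4
      omega
    · have h5 : W * y s = W * y t := by
        simp only [hh] at hst
        rw [h4] at hst
        omega
      have h6 : y s = y t := Nat.eq_of_mul_eq_mul_left hW0 h5
      have h7 : s = (t.1, s.2) := Prod.ext h4 rfl
      rw [h7] at h6
      have h8 := hinj t.1 s.2 t.2 h6
      rw [h7, h8]
    · have := hlt t s h4
      omega
  have hadm : Admissible (Finset.univ.image h) := by
    intro p hp
    by_cases hpW : p ∣ W
    · have hmod : ∀ s, (h s) % p = (e s.1 * B) % p := by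
        intro s
        simp only [hh]
        obtain ⟨c, rfl⟩ := hpW
        rw [show e s.1 * B + p * c * y s = e s.1 * B + p * (c * y s) by ring,
          Nat.add_mul_mod_self_left]
      have hcong : ∀ (v₀ : ℕ) s, p ∣ v₀ + h s → p ∣ v₀ + e s.1 * B := by
        intro v₀ s hd
        have h4 : v₀ + h s ≡ v₀ + e s.1 * B [MOD p] := Nat.ModEq.add_left v₀ (hmod s)
        exact (h4.dvd_iff dvd_rfl).1 hd
      rcases Nat.lt_or_ge p 5 with hp5 | hp5
      · have hp23 : p = 2 ∨ p = 3 := by
          have := hp.two_le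
          interval_cases p
          · exact Or.inl rfl
          · exact Or.inr rfl
          · exact absurd hp (by norm_num)
        rcases hp23 with rfl | rfl
        · obtain ⟨r, hr⟩ := h2
          refine ⟨r, fun a ha hd => ?_⟩
          obtain ⟨s, -, rfl⟩ := Finset.mem_image.1 ha
          exact hr s.1 (hcong _ s hd)
        · obtain ⟨r, hr⟩ := h3
          refine ⟨r, fun a ha hd => ?_⟩
          obtain ⟨s, -, rfl⟩ := Finset.mem_image.1 ha
          exact hr s.1 (hcong _ s hd)
      · apply exists_missing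
        have h4 : (Finset.univ.image h).image (fun x => x % p) ⊆
            (Finset.univ : Finset (Fin 4)).image (fun i => (e i * B) % p) := by
          intro x hx
          obtain ⟨y, hy, rfl⟩ := Finset.mem_image.1 hx
          obtain ⟨s, -, rfl⟩ := Finset.mem_image.1 hy
          beta_reduce
          rw [hmod s]
          exact Finset.mem_image_of_mem (fun i => (e i * B) % p) (Finset.mem_univ s.1)
        calc _ ≤ _ := card_le_card h4
          _ ≤ (Finset.univ : Finset (Fin 4)).card := card_image_le
          _ = 4 := by simp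
          _ < p := by omega
    · have hpL : 4 * L < p := by
        by_contra hcon
        push Not at hcon
        apply hpW
        refine dvd_trans ?_ hW
        unfold primorial
        exact Finset.dvd_prod_of_mem (fun q => q) (mem_filter.2 ⟨mem_range.2 (by omega), hp⟩)
      apply exists_missing
      calc _ ≤ (Finset.univ.image h).card := card_image_le
        _ ≤ (Finset.univ : Finset (Fin 4 × Fin L)).card := card_image_le
        _ = 4 * L := by simp
        _ < p := hpL
  obtain ⟨s, t, hst, h4⟩ := hP h hinj' hadm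
  refine ⟨s, t, hst, ?_⟩
  have h5 := hdiff s t hst
  have h6 : Nat.dist (h s) (h t) = (e t.1 - e s.1) * (B + W * m s t) := by
    unfold Nat.dist
    omega
  rw [← h6]
  exact h4

end PoolPK
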