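import Pool.Agent.Work.MP_70e905_nt.PK.P.Defs
import Pool.Agent.Work.MP_70e905_nt.PK.Defs

/-!
# PK/F/Defs : definitions of the final block (fixed file, do not change)
-/

set_option autoImplicit false

namespace PoolPK

open Finset

/-- `m` is small and `b + primorial w * m` is a large element of `Bd` -/
def Cnd (w E N b : ℕ) (Bd : Set ℕ) (m : ℕ) : Prop :=
  4 * E * m < N ∧ N ≤ b + primorial w * m ∧ b + primorial w * m ∈ Bd

open Classical in
/-- the number of `m < N` with `Cnd` -/
noncomputable def cM (w E N b : ℕ) (Bd : Set ℕ) : ℕ := #((range N).filter (Cnd w E N b Bd))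

open Pool.Agent.Work.MP_70e905_nt.PK in
open Classical in
/-- the quadruples all six quotients of which satisfy `Cnd` -/
noncomputable def HS (w E N b : ℕ) [NeZero N] (Bd : Set ℕ) (e : Fin 4 → ℤ) :
    Finset (Fin 4 → ZMod N) :=
  univ.filter (fun x => ∀ p ∈ P, Cnd w E N b Bd ((x p.2 - x p.1) * dv N e p).val)

end PoolPK
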