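import Pool.Agent.Work.MP_70e905_nt.PK.F.Defs

/-!
# PK/F/Lift (size M): from `ZMod N` to the natural numbers

PROOF. Let `x s = A s.1 s.2`, `o = (0, 0)` (`L ≥ 1`), `E = e 3 - e 0`, `d s t = e t.1 - e s.1 ∈ [1, E]` for `s.1 < t.1` (not `0` modulo `N`, as `0 < d ≤ e 3 < N`), so by the definition of `M`:
`x t - x s = d s t * M s t` in `ZMod N` and `0 ≤ d s t * M s t ≤ E M s t < N / 4`. Let `z s = (x s - x o).valMinAbs : ℤ` (the representative in `(-N / 2, N / 2]`). Claim `|z s| < N / 4` for all `s`: if `s.1 ≥ 1` then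
`x s - x o = d o s * M o s` with an integer in `[0, N / 4)`, so `z s` is this integer (uniqueness, `ZMod.valMinAbs_spec`). If `s.1 = 0`, let `u = (1, 0)`: `x s - x o = (x u - x o) - (x u - x s) = d o u M o u - d s u M s u`, an integer in
`(-N / 4, N / 4)`. Put `y s = (N + z s).toNat` (positive). For `s.1 < t.1` both `z t - z s` and `d s t * M s t` are integers representing `x t - x s`, of absolute value `< N / 2`, so they are equal: `y t = y s + d s t * M s t`.
If `y (i, a) = y (i, b)` then `x (i, a) = x (i, b)`, so `a = b` by injectivity.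
-/

set_option autoImplicit false

namespace PoolPK

open Finset

open Pool.Agent.Work.MP_70e905_nt.PK in
theorem lift (N : ℕ) [NeZero N] [Fact N.Prime] (e : Fin 4 → ℕ) (he : StrictMono e) (hN : e 3 < N)
    (L : ℕ) (hL : 1 ≤ L) (A : Fin 4 → Fin L → ZMod N) (hA : ∀ i, Function.Injective (A i))
    (M : Fin 4 × Fin L → Fin 4 × Fin L → ℕ)
    (hM : ∀ s t, s.1 < t.1 →
      M s t = ((A t.1 t.2 - A s.1 s.2) * dv N (fun i => (e i : ℤ)) (s.1, t.1)).val)
    (hs : ∀ s t, s.1 < t.1 → 4 * (e 3 - e 0) * M s t < N) :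
    ∃ y : Fin 4 × Fin L → ℕ,
      (∀ s t, s.1 < t.1 → y t = y s + (e t.1 - e s.1) * M s t) ∧
      ∀ (i : Fin 4) (a b : Fin L), y (i, a) = y (i, b) → a = b := by
  have hN0 : 0 < N := Nat.pos_of_ne_zero (NeZero.ne N)
  have hmono : ∀ i j : Fin 4, i ≤ j → e i ≤ e j := fun i j h => he.monotone h
  have h03 : ∀ i : Fin 4, e 0 ≤ e i ∧ e i ≤ e 3 := fun i =>
    ⟨hmono _ _ (Fin.zero_le i), hmono _ _ (Fin.le_last i)⟩
  obtain ⟨x, hx⟩ : ∃ x : Fin 4 × Fin L → ZMod N, ∀ s, x s = A s.1 s.2 := ⟨_, fun _ => rfl⟩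
  obtain ⟨d, hd⟩ : ∃ d : Fin 4 × Fin L → Fin 4 × Fin L → ℤ,
      ∀ s t, d s t = (((e t.1 - e s.1) * M s t : ℕ) : ℤ) := ⟨_, fun _ _ => rfl⟩
  have hd0 : ∀ s t, 0 ≤ d s t := by
    intro s t
    rw [hd]
    exact Int.natCast_nonneg _
  have hd4 : ∀ s t, s.1 < t.1 → 4 * d s t < N := by
    intro s t hst
    rw [hd]
    have h1 := hs s t hst
    have h2 : e t.1 - e s.1 ≤ e 3 - e 0 := by
      have := h03 s.1
      have := h03 t.1
      omega
    have h3 : (e t.1 - e s.1) * M s t ≤ (e 3 - e 0) * M s t := Nat.mul_le_mul_right _ h2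
    have h4 : 4 * ((e t.1 - e s.1) * M s t) < N := by
      calc 4 * ((e t.1 - e s.1) * M s t) ≤ 4 * ((e 3 - e 0) * M s t) := by omega
        _ = 4 * (e 3 - e 0) * M s t := by ring
        _ < N := h1
    exact_mod_cast h4
  have hdx : ∀ s t, s.1 < t.1 → ((d s t : ℤ) : ZMod N) = x t - x s := by
    intro s t hst
    rw [hd, hx, hx]
    have h1 : ((M s t : ℕ) : ZMod N) =
        (A t.1 t.2 - A s.1 s.2) * dv N (fun i => (e i : ℤ)) (s.1, t.1) := by
      rw [hM s t hst, ZMod.natCast_zmod_val]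
    have hlt : e s.1 < e t.1 := he hst
    have h2 : (((e t.1 : ℤ) - (e s.1 : ℤ) : ℤ) : ZMod N) = ((e t.1 - e s.1 : ℕ) : ZMod N) := by
      rw [← Int.cast_natCast (e t.1 - e s.1 : ℕ)]
      congr 1
      omega
    have h3 : ((e t.1 - e s.1 : ℕ) : ZMod N) ≠ 0 := by
      intro h
      rw [ZMod.natCast_eq_zero_iff] at h
      have h4 := Nat.le_of_dvd (by omega) h
      have := h03 t.1
      omega
    have h5 : dv N (fun i => (e i : ℤ)) (s.1, t.1) = ((e t.1 - e s.1 : ℕ) : ZMod N)⁻¹ := by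
      unfold dv
      rw [← h2]
    rw [Int.cast_natCast, Nat.cast_mul, h1, h5, mul_comm, mul_assoc, inv_mul_cancel₀ h3, mul_one]
  obtain ⟨o, ho⟩ : ∃ o : Fin 4 × Fin L, o.1 = 0 := ⟨(0, ⟨0, hL⟩), rfl⟩
  obtain ⟨u, hu⟩ : ∃ u : Fin 4 × Fin L, u.1 = 1 := ⟨(1, ⟨0, hL⟩), rfl⟩
  have hou : o.1 < u.1 := by
    rw [ho, hu]
    decide
  have hz : ∀ s, ∃ z : ℤ, (z : ZMod N) = x s - x o ∧ 4 * z < N ∧ -(N : ℤ) < 4 * z := by
    intro s
    by_cases h : s.1 = 0
    · have hsu : s.1 < u.1 := by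
        rw [h, hu]
        decide
      refine ⟨d o u - d s u, ?_, ?_, ?_⟩
      · rw [Int.cast_sub, hdx o u hou, hdx s u hsu]
        ring
      · have := hd4 o u hou
        have := hd0 s u
        omega
      · have := hd4 s u hsu
        have := hd0 o u
        omega
    · have hos : o.1 < s.1 := by
        rw [ho]
        exact Fin.pos_of_ne_zero h
      refine ⟨d o s, hdx o s hos, hd4 o s hos, ?_⟩
      have := hd0 o s
      omega
  choose z hz1 hz2 hz3 using hz
  have hzst : ∀ s t, s.1 < t.1 → z t = z s + d s t := by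
    intro s t hst
    have h1 : ((z t - (z s + d s t) : ℤ) : ZMod N) = 0 := by
      rw [Int.cast_sub, Int.cast_add, hz1, hz1, hdx s t hst]
      ring
    rw [ZMod.intCast_zmod_eq_zero_iff_dvd] at h1
    have h2 : z t - (z s + d s t) = 0 := by
      refine Int.eq_zero_of_abs_lt_dvd h1 ?_
      have := hz2 t
      have := hz3 t
      have := hz2 s
      have := hz3 s
      have := hd0 s t
      have := hd4 s t hst
      rw [abs_lt]
      constructor <;> omega
    omega
  refine ⟨fun s => ((N : ℤ) + z s).toNat, ?_, ?_⟩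
  · intro s t hst
    have h1 := hzst s t hst
    rw [hd] at h1
    have := hz3 s
    have := hz3 t
    show ((N : ℤ) + z t).toNat = ((N : ℤ) + z s).toNat + (e t.1 - e s.1) * M s t
    obtain ⟨m, hm⟩ : ∃ m : ℕ, m = (e t.1 - e s.1) * M s t := ⟨_, rfl⟩
    rw [← hm] at h1 ⊢
    omega
  · intro i a b hab
    have h1 : z (i, a) = z (i, b) := by
      have h2 : ((N : ℤ) + z (i, a)).toNat = ((N : ℤ) + z (i, b)).toNat := hab
      have := hz3 (i, a)
      have := hz3 (i, b)
      omega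
    have h3 : x (i, a) = x (i, b) := by
      have h4 := hz1 (i, a)
      have h5 := hz1 (i, b)
      rw [h1, h5] at h4
      exact (sub_left_injective h4).symm
    rw [hx, hx] at h3
    exact hA i h3

end PoolPK
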