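import Pool.Agent.Work.MP_70e905_nt.PK.F.Defs
import Pool.Agent.Work.MP_70e905_nt.PK.W.LFN
import Pool.Agent.Work.MP_70e905_nt.PK.Main

/-!
# PK/F/RelC (size M): many quadruples

PROOF. `a` from `lfN`; `relative (a δ₀)` gives `η`, `c'`; `lfN` for `e`, `η` gives `w₀`; for `w ≥ w₀` it gives `N₀`, and `N₁ = max N₀ 3 ..` is such that the differences `e j - e i` are not `0` modulo `N ≥ N₁`.
Let `v = a log N ∏_{q ∈ prs 0 w} (1 - 1 / q) ≥ 0` and `f m = if Cnd w E N b Bd m.val then v else 0`. `0 ≤ f m ≤ ν (b + primorial w * m.val)`, since under `Cnd` the number `b + primorial w * m.val ≥ N` is a prime.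
`av f = v cM / N ≥ a δ₀` (the map `m ↦ m.val` is a bijection onto `range N`). `relative`: `c' ≤ tK (cay e f)`, and `tK (cay e f) = v ^ 6 #HS / N ^ 4` (the product of the six values is `v ^ 6` if all six `Cnd` hold and `0` otherwise; `#P = 6`).
`v ≤ a log N` (`0 ≤ 1 - 1 / q ≤ 1`), so `#HS ≥ c' N ^ 4 / (a log N) ^ 6`; `c = c' / a ^ 6`. (`N ≥ 3`, `log N > 0`.)
-/

set_option autoImplicit false

namespace PoolPK

open Finset

open Pool.Agent.Work.MP_70e905_nt.PK in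
private theorem cardP : #P = 6 := by decide

open Pool.Agent.Work.MP_70e905_nt.PK in
private theorem mem_HS {w E N b : ℕ} [NeZero N] {Bd : Set ℕ} {e : Fin 4 → ℤ}
    {x : Fin 4 → ZMod N} :
    x ∈ HS w E N b Bd e ↔ ∀ p ∈ P, Cnd w E N b Bd ((x p.2 - x p.1) * dv N e p).val := by
  classical
  unfold HS
  simp only [mem_filter, mem_univ, true_and]

private theorem mem_prs {w q : ℕ} (h : q ∈ prs 0 w) : q.Prime := by
  unfold prs at h
  exact (mem_filter.1 h).2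

private theorem prod_bd (w : ℕ) :
    0 ≤ ∏ q ∈ prs 0 w, (1 - 1 / (q : ℝ)) ∧ ∏ q ∈ prs 0 w, (1 - 1 / (q : ℝ)) ≤ 1 := by
  have h : ∀ q ∈ prs 0 w, 0 ≤ 1 - 1 / (q : ℝ) ∧ 1 - 1 / (q : ℝ) ≤ 1 := by
    intro q hq
    have h2 : (1 : ℝ) ≤ q := by exact_mod_cast (mem_prs hq).one_lt.le
    have h3 : 1 / (q : ℝ) ≤ 1 := by
      rw [div_le_one (by linarith)]
      exact h2
    have h4 : 0 ≤ 1 / (q : ℝ) := by positivity
    constructor <;> linarith
  exact ⟨prod_nonneg fun q hq => (h q hq).1, Finset.prod_le_one (fun q hq => (h q hq).1)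
    fun q hq => (h q hq).2⟩

private theorem sum_f {w E N b : ℕ} [NeZero N] {Bd : Set ℕ} (v : ℝ)
    (f : ZMod N → ℝ) (hf1 : ∀ m : ZMod N, Cnd w E N b Bd m.val → f m = v)
    (hf2 : ∀ m : ZMod N, ¬ Cnd w E N b Bd m.val → f m = 0) :
    ∑ m, f m = v * (cM w E N b Bd : ℝ) := by
  classical
  have h1 : ∀ m : ZMod N, f m = if Cnd w E N b Bd m.val then v else 0 := by
    intro m
    split_ifs with h
    · exact hf1 m h
    · exact hf2 m h
  rw [sum_congr rfl fun m _ => h1 m, ← sum_filter, sum_const, nsmul_eq_mul, mul_comm]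
  congr 2
  unfold cM
  refine card_nbij' (fun m : ZMod N => m.val) (fun m : ℕ => (m : ZMod N)) ?_ ?_ ?_ ?_
  · intro m hm
    rw [mem_coe, mem_filter] at hm
    rw [mem_coe, mem_filter, mem_range]
    exact ⟨ZMod.val_lt m, hm.2⟩
  · intro m hm
    rw [mem_coe, mem_filter, mem_range] at hm
    rw [mem_coe, mem_filter, ZMod.val_cast_of_lt hm.1]
    exact ⟨mem_univ _, hm.2⟩
  · intro m _
    exact ZMod.natCast_zmod_val m
  · intro m hm
    rw [mem_coe, mem_filter, mem_range] at hm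
    exact ZMod.val_cast_of_lt hm.1

open Pool.Agent.Work.MP_70e905_nt.PK in
private theorem tK_f {w E N b : ℕ} [NeZero N] {Bd : Set ℕ} (e : Fin 4 → ℤ) (v : ℝ)
    (f : ZMod N → ℝ) (hf1 : ∀ m : ZMod N, Cnd w E N b Bd m.val → f m = v)
    (hf2 : ∀ m : ZMod N, ¬ Cnd w E N b Bd m.val → f m = 0) :
    tK (cay e f) = v ^ 6 * (#(HS w E N b Bd e) : ℝ) / (N : ℝ) ^ 4 := by
  classical
  have h1 : ∀ x : Fin 4 → ZMod N, ∏ p ∈ P, cay e f p (x p.1) (x p.2) =
      if x ∈ HS w E N b Bd e then v ^ 6 else 0 := by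
    intro x
    split_ifs with h
    · rw [prod_congr rfl (g := fun _ => v), prod_const, cardP]
      intro p hp
      exact hf1 _ (mem_HS.1 h p hp)
    · rw [mem_HS] at h
      push Not at h
      obtain ⟨p, hp, hc⟩ := h
      exact prod_eq_zero hp (hf2 _ hc)
  unfold tK av
  rw [sum_congr rfl fun x _ => h1 x, sum_ite_mem, univ_inter, sum_const, nsmul_eq_mul,
    Fintype.card_fun, ZMod.card, Fintype.card_fin, mul_comm]
  push_cast
  rfl

theorem relc (δ₀ : ℝ) (hδ₀ : 0 < δ₀) (e : Fin 4 → ℤ) (he : StrictMono e) (E : ℕ) : ∃ w₀ : ℕ,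
    ∀ w : ℕ, w₀ ≤ w → ∃ c : ℝ, 0 < c ∧ ∃ N₁ : ℕ, ∀ (N : ℕ) [NeZero N] [Fact N.Prime], N₁ ≤ N →
    ∀ (b : ℕ) (Bd : Set ℕ), (∀ ℓ ∈ Bd, ℓ.Prime) →
    δ₀ * N ≤ (Real.log N * ∏ q ∈ prs 0 w, (1 - 1 / (q : ℝ))) * (cM w E N b Bd : ℝ) →
      c * (N : ℝ) ^ 4 / Real.log N ^ 6 ≤ (#(HS w E N b Bd e) : ℝ) := by
  classical
  obtain ⟨a, ha, hlf⟩ := lfN
  obtain ⟨η, c', hη, hc', hrel⟩ :=
    Pool.Agent.Work.MP_70e905_nt.PK.relative (a * δ₀) (mul_pos ha hδ₀)
  obtain ⟨w₀, hw₀⟩ := hlf e he η hη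
  refine ⟨w₀, fun w hw => ⟨c' / a ^ 6, by positivity, ?_⟩⟩
  obtain ⟨N₀, hN₀⟩ := hw₀ w hw
  refine ⟨max N₀ (max 3 ((e 3 - e 0).toNat + 1)), ?_⟩
  intro N _ _ hN b Bd hBd hM
  have hN0 : N₀ ≤ N := (le_max_left _ _).trans hN
  have hN3 : 3 ≤ N := ((le_max_left _ _).trans (le_max_right _ _)).trans hN
  have hNe : (e 3 - e 0).toNat + 1 ≤ N := ((le_max_right _ _).trans (le_max_right _ _)).trans hN
  obtain ⟨ν, hν0, hνp, hLF⟩ := hN₀ N hN0
  have hlog : 0 < Real.log N := Real.log_pos (by exact_mod_cast (by omega : 1 < N))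
  obtain ⟨hp0, hp1⟩ := prod_bd w
  set G := Real.log N * ∏ q ∈ prs 0 w, (1 - 1 / (q : ℝ)) with hG
  have hG0 : 0 ≤ G := mul_nonneg hlog.le hp0
  have hG1 : G ≤ Real.log N := by
    rw [hG]
    exact mul_le_of_le_one_right hlog.le hp1
  have hNR : (0 : ℝ) < N := by exact_mod_cast (by omega : 0 < N)
  -- the function
  let f : ZMod N → ℝ := fun m => if Cnd w E N b Bd m.val then a * G else 0
  have hf1 : ∀ m : ZMod N, Cnd w E N b Bd m.val → f m = a * G := fun m h => if_pos h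
  have hf2 : ∀ m : ZMod N, ¬ Cnd w E N b Bd m.val → f m = 0 := fun m h => if_neg h
  have hfν : ∀ m : ZMod N, 0 ≤ f m ∧ f m ≤ ν ((b : ℤ) + primorial w * (m.val : ℤ)) := by
    intro m
    by_cases h : Cnd w E N b Bd m.val
    · rw [hf1 m h]
      refine ⟨mul_nonneg ha.le hG0, ?_⟩
      have h1 := hνp (b + primorial w * m.val) (hBd _ h.2.2) h.2.1
      push_cast at h1
      exact h1
    · rw [hf2 m h]
      exact ⟨le_rfl, hν0 _⟩
  have hdiff : ∀ p ∈ Pool.Agent.Work.MP_70e905_nt.PK.P,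
      ((e p.2 - e p.1 : ℤ) : ZMod N) ≠ 0 := by
    intro p hp h0
    have hlt : p.1 < p.2 := by
      unfold Pool.Agent.Work.MP_70e905_nt.PK.P at hp
      exact (mem_filter.1 hp).2
    have h1 : 0 < e p.2 - e p.1 := sub_pos.2 (he hlt)
    have h2 : e p.2 ≤ e 3 := he.monotone (Fin.le_last p.2)
    have h3 : e 0 ≤ e p.1 := he.monotone (Fin.zero_le p.1)
    rw [ZMod.intCast_zmod_eq_zero_iff_dvd] at h0
    have h4 := Int.le_of_dvd h1 h0
    have h5 : ((e 3 - e 0).toNat : ℤ) = e 3 - e 0 := Int.toNat_of_nonneg (by linarith)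
    have h6 : ((e 3 - e 0).toNat : ℤ) + 1 ≤ N := by exact_mod_cast hNe
    linarith
  have hav : a * δ₀ ≤ Pool.Agent.Work.MP_70e905_nt.PK.av f := by
    unfold Pool.Agent.Work.MP_70e905_nt.PK.av
    rw [sum_f (a * G) f hf1 hf2, ZMod.card, le_div_iff₀ hNR]
    calc a * δ₀ * N = a * (δ₀ * N) := by ring
      _ ≤ a * (G * (cM w E N b Bd : ℝ)) := mul_le_mul_of_nonneg_left hM ha.le
      _ = a * G * (cM w E N b Bd : ℝ) := by ring
  have hmain := hrel N e hdiff f (fun m => ν ((b : ℤ) + primorial w * (m.val : ℤ))) hfν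
    (hLF b) hav
  rw [tK_f e (a * G) f hf1 hf2, le_div_iff₀ (by positivity)] at hmain
  have h6 : (a * G) ^ 6 ≤ a ^ 6 * Real.log N ^ 6 := by
    rw [mul_pow]
    exact mul_le_mul_of_nonneg_left (pow_le_pow_left₀ hG0 hG1 6) (by positivity)
  rw [div_le_iff₀ (by positivity), div_mul_eq_mul_div, div_le_iff₀ (by positivity)]
  calc c' * (N : ℝ) ^ 4 ≤ (a * G) ^ 6 * (#(HS w E N b Bd e) : ℝ) := hmain
    _ ≤ a ^ 6 * Real.log N ^ 6 * (#(HS w E N b Bd e) : ℝ) :=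
        mul_le_mul_of_nonneg_right h6 (Nat.cast_nonneg _)
    _ = (#(HS w E N b Bd e) : ℝ) * Real.log N ^ 6 * a ^ 6 := by ring

end PoolPK
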