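import Pool.Agent.Work.MP_70e905_nt.PK.F.Defs
import Pool.Agent.Work.BV.PIV

/-!
# PK/F/Win (size M): a residue class and a prime modulus

PROOF. `BV.pnt_all` (prime number theorem) gives `y / (2 log y) ≤ π y ≤ 2 y / log y` for large `y`. `δ₀ = ε / (72 E)`; `w₁` such that `W = primorial w ≥ 144 E / ε` for `w ≥ w₁`
(`W` is at least the largest prime `≤ w`, which is `≥ w / 2` by Bertrand, `Nat.exists_prime_lt_and_le_two_mul`). Let `x` be large, `n₀ = 4 E x / W + 1` (floor), so `n₀ > 4 E x / W`; Bertrand: a prime `N`,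
`n₀ < N ≤ 2 n₀ ≤ 9 E x / W`. Then `π N ≤ 2 (9 E x / W) / log (9 E x / W) ≤ 36 (E / W) x / log x ≤ (ε / 4) x / log x ≤ (ε / 2) π x` (`log (9 E x / W) ≥ (log x) / 2` for large `x`; use the monotonicity of
`π`), so at least `(ε / 2) π x` elements `ℓ` of `Bd` satisfy `N ≤ ℓ ≤ x` (even `N < ℓ`). As `N > b₀ + W` and `N > w` for large `x`, each such prime `ℓ` is coprime to `W`, so it is `b + W m` for exactly one `b ∈ [b₀, b₀ + W)`, and
this `b` is coprime to `W`; there are `φ W` such `b` (`Nat.filter_coprime_Ico_eq_totient`), so for one of them at least `(ε / 2) π x / φ W ≥ (ε / 4) x / (φ W log x)` of the `ℓ` are of the form `b + W m`; `m ≤ x / W`, so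
`4 E m ≤ 4 E x / W < N`, `m < N`. Finally `x ≥ N W / (9 E)`, `log x ≤ 2 log N` (`N ≥ 4 E x / W ≥ √x`), and `∏_{q ≤ w} (1 - 1 / q) = φ W / W` (`Nat.totient_eq_mul_prod_factors` or the product formula for a
squarefree number): `cM ≥ (ε / 4) (N W / (9 E)) / (2 φ W log N) = ε N W / (72 E φ W log N)`.
-/

set_option autoImplicit false

namespace PoolPK

open Finset

private theorem prs_eq (w : ℕ) : prs 0 w = (primorial w).primeFactors := by
  have h1 : primorial w = ∏ p ∈ prs 0 w, p := by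
    unfold primorial prs
    refine Finset.prod_congr ?_ fun _ _ => rfl
    ext p
    simp only [mem_filter, mem_range, mem_Ioc]
    constructor
    · rintro ⟨h, hp⟩
      exact ⟨⟨hp.pos, by omega⟩, hp⟩
    · rintro ⟨⟨_, h⟩, hp⟩
      exact ⟨by omega, hp⟩
  rw [h1, Nat.primeFactors_prod]
  intro p hp
  exact (mem_filter.1 hp).2

private theorem pr_eq (w : ℕ) : ∏ q ∈ prs 0 w, (1 - 1 / (q : ℝ)) =
    (Nat.totient (primorial w) : ℝ) / (primorial w : ℝ) := by
  have h0 : (primorial w : ℝ) ≠ 0 := by exact_mod_cast (primorial_pos w).ne'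
  have h1 := Nat.totient_eq_mul_prod_factors (primorial w)
  have h2 : (Nat.totient (primorial w) : ℝ) = (primorial w : ℝ) *
      ∏ q ∈ (primorial w).primeFactors, (1 - 1 / (q : ℝ)) := by
    have := congrArg (fun r : ℚ => (r : ℝ)) h1
    simp only [one_div]
    push_cast at this
    exact this
  rw [h2, ← prs_eq, mul_div_cancel_left₀ _ h0]

open Classical in
/-- the combinatorial part -/
private theorem fib {w E N b₀ x : ℕ} (hE : 1 ≤ E) (Bd : Set ℕ) (hB : ∀ ℓ ∈ Bd, ℓ.Prime)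
    (hN1 : b₀ + primorial w ≤ N) (hN2 : w < N) (hN3 : 4 * E * x < N * primorial w) :
    ∃ b : ℕ, b₀ ≤ b ∧ b < N ∧ Nat.Coprime b (primorial w) ∧
      (#((range (x + 1)).filter (fun ℓ => ℓ ∈ Bd ∧ N ≤ ℓ)) : ℝ) ≤
        (Nat.totient (primorial w) : ℝ) * (cM w E N b Bd : ℝ) := by
  set W := primorial w with hW
  have hW0 : 0 < W := primorial_pos w
  set s := (range (x + 1)).filter (fun ℓ => ℓ ∈ Bd ∧ N ≤ ℓ) with hs
  set t := (Ico b₀ (b₀ + W)).filter (fun b => W.Coprime b) with ht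
  have htc : #t = Nat.totient W := Nat.filter_coprime_Ico_eq_totient W b₀
  have htp : 0 < #t := by rw [htc]; exact Nat.totient_pos.2 hW0
  have hpos : (0 : ℝ) < #t := by exact_mod_cast htp
  have hcop : ∀ ℓ ∈ s, W.Coprime ℓ := by
    intro ℓ hℓ
    rw [hs, mem_filter] at hℓ
    have hp := hB ℓ hℓ.2.1
    have h1 : ¬ ℓ ∣ W := by
      intro hd
      rw [hW] at hd
      have h2 : ℓ ∈ (primorial w).primeFactors :=
        Nat.mem_primeFactors.2 ⟨hp, hd, (primorial_pos w).ne'⟩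
      rw [← prs_eq] at h2
      have h3 := (mem_Ioc.1 (mem_filter.1 h2).1).2
      omega
    exact ((Nat.Prime.coprime_iff_not_dvd hp).2 h1).symm
  have hmap : ∀ ℓ ∈ s, b₀ + (ℓ - b₀) % W ∈ t := by
    intro ℓ hℓ
    have h1 := hcop ℓ hℓ
    rw [hs, mem_filter] at hℓ
    rw [ht, mem_filter, mem_Ico]
    refine ⟨⟨by omega, by have := Nat.mod_lt (ℓ - b₀) hW0; omega⟩, ?_⟩
    have h2 : ℓ = b₀ + (ℓ - b₀) % W + W * ((ℓ - b₀) / W) := by
      have := Nat.mod_add_div (ℓ - b₀) W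
      omega
    rw [h2] at h1
    exact (Nat.coprime_add_mul_left_right W _ _).1 h1
  have hn : #t • ((#s : ℝ) / #t) ≤ (#s : ℝ) := by
    rw [nsmul_eq_mul, mul_div_cancel₀ _ hpos.ne']
  obtain ⟨b, hb, hb2⟩ := Finset.exists_le_card_fiber_of_nsmul_le_card_of_maps_to hmap
    (Finset.card_pos.1 htp) hn
  rw [ht, mem_filter, mem_Ico] at hb
  refine ⟨b, hb.1.1, by omega, hb.2.symm, ?_⟩
  have hinj : #(s.filter (fun ℓ => b₀ + (ℓ - b₀) % W = b)) ≤ cM w E N b Bd := by
    unfold cM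
    refine Finset.card_le_card_of_injOn (fun ℓ => (ℓ - b₀) / W) ?_ ?_
    · intro ℓ hℓ
      rw [mem_coe, mem_filter] at hℓ
      obtain ⟨h1, h2⟩ := hℓ
      rw [hs, mem_filter, mem_range] at h1
      obtain ⟨h1, h3, h4⟩ := h1
      have h5 : b + W * ((ℓ - b₀) / W) = ℓ := by
        have := Nat.mod_add_div (ℓ - b₀) W
        omega
      have h6 : 4 * E * ((ℓ - b₀) / W) < N := by
        have h7 : 4 * E * ((ℓ - b₀) / W) * W ≤ 4 * E * x := by
          have h8 : (ℓ - b₀) / W * W ≤ x := by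
            have := Nat.div_mul_le_self (ℓ - b₀) W
            omega
          calc 4 * E * ((ℓ - b₀) / W) * W = 4 * E * ((ℓ - b₀) / W * W) := by ring
            _ ≤ 4 * E * x := Nat.mul_le_mul_left _ h8
        exact Nat.lt_of_mul_lt_mul_right (lt_of_le_of_lt h7 hN3)
      simp only [mem_coe, mem_filter, mem_range]
      refine ⟨?_, h6, ?_, ?_⟩
      · have : (ℓ - b₀) / W ≤ 4 * E * ((ℓ - b₀) / W) :=
          Nat.le_mul_of_pos_left _ (by omega)
        omega
      · rw [← hW, h5]; exact h4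
      · rw [← hW, h5]; exact h3
    · intro ℓ hℓ ℓ' hℓ' he
      rw [mem_coe, mem_filter] at hℓ hℓ'
      have he' : (ℓ - b₀) / W = (ℓ' - b₀) / W := he
      have h1 := (mem_filter.1 hℓ.1).2.2
      have h2 := (mem_filter.1 hℓ'.1).2.2
      have h3 := Nat.mod_add_div (ℓ - b₀) W
      have h4 := Nat.mod_add_div (ℓ' - b₀) W
      have h5 := hℓ.2
      have h6 := hℓ'.2
      rw [he'] at h3
      omega
  have h1 : (#s : ℝ) / #t ≤ (cM w E N b Bd : ℝ) := by
    refine hb2.trans ?_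
    exact_mod_cast hinj
  rw [div_le_iff₀ hpos] at h1
  rw [← htc]
  linarith [mul_comm (#t : ℝ) (cM w E N b Bd : ℝ)]

private theorem pnt_bounds : ∃ Y : ℕ, 3 ≤ Y ∧ ∀ y : ℕ, Y ≤ y →
    (y : ℝ) ≤ 2 * Real.log y * Nat.primeCounting y ∧
      (Nat.primeCounting y : ℝ) * Real.log y ≤ 2 * y := by
  have h := BV.pnt_all
  unfold BV.PNT at h
  have h1 := (h.eventually (Ioo_mem_nhds (by norm_num : (1 / 2 : ℝ) < 1)
    (by norm_num : (1 : ℝ) < 2)))
  obtain ⟨Y, hY⟩ := Filter.eventually_atTop.1 h1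
  refine ⟨max Y 3, le_max_right _ _, fun y hy => ?_⟩
  have h2 := hY y ((le_max_left _ _).trans hy)
  have hy3 : (0 : ℝ) < y := by
    have : 3 ≤ y := (le_max_right _ _).trans hy
    exact_mod_cast (by omega : 0 < y)
  obtain ⟨h3, h4⟩ := h2
  rw [lt_div_iff₀ hy3] at h3
  rw [div_lt_iff₀ hy3] at h4
  constructor
  · nlinarith
  · linarith

open Classical in
theorem window (ε : ℝ) (hε : 0 < ε) (E : ℕ) (hE : 1 ≤ E) : ∃ δ₀ : ℝ, 0 < δ₀ ∧ ∃ w₁ : ℕ,
    ∀ w : ℕ, w₁ ≤ w → ∀ b₀ N₀ : ℕ, ∃ X₀ : ℕ, ∀ x : ℕ, X₀ ≤ x → ∀ Bd : Set ℕ,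
    (∀ ℓ ∈ Bd, ℓ.Prime) →
    ε * (Nat.primeCounting x : ℝ) ≤ (#((range (x + 1)).filter (fun ℓ => ℓ ∈ Bd)) : ℝ) →
    ∃ N b : ℕ, N.Prime ∧ N₀ ≤ N ∧ b₀ ≤ b ∧ b < N ∧ Nat.Coprime b (primorial w) ∧
      δ₀ * N ≤ (Real.log N * ∏ q ∈ prs 0 w, (1 - 1 / (q : ℝ))) * (cM w E N b Bd : ℝ) := by
  have hE1 : (1 : ℝ) ≤ E := by exact_mod_cast hE
  have hE0 : (0 : ℝ) < E := by linarith
  obtain ⟨w₁, hw₁, hw₁p⟩ := Nat.exists_infinite_primes ⌈144 * E / ε⌉₊
  obtain ⟨Y, hY3, hY⟩ := pnt_bounds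
  refine ⟨ε / (72 * E), by positivity, w₁, fun w hw b₀ N₀ => ?_⟩
  set W := primorial w with hW
  have hW0 : 0 < W := primorial_pos w
  have hW0' : (0 : ℝ) < W := by exact_mod_cast hW0
  have hWbig : 144 * E / ε ≤ (W : ℝ) := by
    have h1 : w₁ ∣ W := by
      rw [hW]
      unfold primorial
      exact Finset.dvd_prod_of_mem _ (mem_filter.2 ⟨mem_range.2 (by omega), hw₁p⟩)
    have h2 : w₁ ≤ W := Nat.le_of_dvd hW0 h1
    calc 144 * E / ε ≤ (⌈144 * E / ε⌉₊ : ℝ) := Nat.le_ceil _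
      _ ≤ (w₁ : ℝ) := by exact_mod_cast hw₁
      _ ≤ W := by exact_mod_cast h2
  refine ⟨Y + W * (b₀ + W + N₀ + w + Y + 2), fun x hx Bd hBd hcard => ?_⟩
  have hxY : Y ≤ x := by omega
  have hxW : W * (b₀ + W + N₀ + w + Y + 2) ≤ x := by omega
  have hx0 : (0 : ℝ) < x := by exact_mod_cast (by omega : 0 < x)
  -- the prime N
  obtain ⟨N, hNp, hN1, hN2⟩ := Nat.exists_prime_lt_and_le_two_mul (4 * E * x / W + 1)
    (Nat.succ_ne_zero _)
  have hNa : 4 * E * x < N * W := by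
    have h1 : 4 * E * x < W * (4 * E * x / W + 1) := Nat.lt_mul_div_succ _ hW0
    have h2 : W * (4 * E * x / W + 1) ≤ W * N := Nat.mul_le_mul_left _ hN1.le
    calc 4 * E * x < W * N := lt_of_lt_of_le h1 h2
      _ = N * W := Nat.mul_comm _ _
  have hNb : b₀ + W + N₀ + w + Y + 2 ≤ N := by
    have h1 : W * (b₀ + W + N₀ + w + Y + 2) < W * N := by
      calc W * (b₀ + W + N₀ + w + Y + 2) ≤ x := hxW
        _ ≤ 4 * E * x := Nat.le_mul_of_pos_left _ (by omega)
        _ < N * W := hNa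
        _ = W * N := Nat.mul_comm _ _
    exact (Nat.lt_of_mul_lt_mul_left h1).le
  have hNc : (N : ℝ) * W ≤ 9 * E * x := by
    have h1 : (N : ℝ) ≤ 2 * ((4 * E * x / W : ℕ) + 1) := by exact_mod_cast hN2
    have h2 : ((4 * E * x / W : ℕ) : ℝ) ≤ 4 * E * x / W := by
      have := @Nat.cast_div_le ℝ _ _ _ (4 * E * x) W
      push_cast at this ⊢
      exact this
    have h3 : (2 * W : ℝ) ≤ x := by
      have h4 : W * 2 ≤ x := le_trans (Nat.mul_le_mul_left W (by omega)) hxW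
      have h5 : (W : ℝ) * 2 ≤ x := by exact_mod_cast h4
      linarith
    have h4 : (4 * E * x / W : ℝ) * W = 4 * E * x := by field_simp
    have h5 : (N : ℝ) * W ≤ 2 * (4 * E * x / W + 1) * W := by
      apply mul_le_mul_of_nonneg_right _ hW0'.le
      linarith
    have h6 : (x : ℝ) ≤ E * x := le_mul_of_one_le_left hx0.le hE1
    nlinarith
  obtain ⟨b, hb1, hb2, hb3, hb4⟩ := fib (w := w) (E := E) (N := N) (b₀ := b₀) (x := x) hE Bd hBd
    (by rw [← hW]; omega) (by omega) (by rw [← hW]; exact hNa)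
  refine ⟨N, b, hNp, by omega, hb1, hb2, hb3, ?_⟩
  -- logarithms
  have hN0 : (0 : ℝ) < N := by exact_mod_cast hNp.pos
  have hNW : (W : ℝ) ≤ N := by exact_mod_cast (by omega : W ≤ N)
  have hlogN : Real.log x ≤ 2 * Real.log N := by
    have h1 : (x : ℝ) ≤ (N : ℝ) ^ 2 := by
      have h2 : (x : ℝ) ≤ N * W := by
        have : x ≤ N * W := (Nat.le_mul_of_pos_left x (by omega : 0 < 4 * E)).trans hNa.le
        exact_mod_cast this
      nlinarith
    have h2 := Real.log_le_log hx0 h1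
    rw [Real.log_pow] at h2
    exact_mod_cast h2
  have hlx : 0 < Real.log x := Real.log_pos (by exact_mod_cast (by omega : 1 < x))
  have hlN : 0 < Real.log N := by linarith
  -- the small elements
  have hsplit : (#((range (x + 1)).filter (fun ℓ => ℓ ∈ Bd)) : ℝ) ≤
      (Nat.primeCounting N : ℝ) +
        (#((range (x + 1)).filter (fun ℓ => ℓ ∈ Bd ∧ N ≤ ℓ)) : ℝ) := by
    have h1 : (range (x + 1)).filter (fun ℓ => ℓ ∈ Bd) ⊆
        (range (N + 1)).filter Nat.Prime ∪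
          (range (x + 1)).filter (fun ℓ => ℓ ∈ Bd ∧ N ≤ ℓ) := by
      intro ℓ hℓ
      rw [mem_filter] at hℓ
      rw [mem_union, mem_filter, mem_filter]
      by_cases hc : N ≤ ℓ
      · exact Or.inr ⟨hℓ.1, hℓ.2, hc⟩
      · exact Or.inl ⟨mem_range.2 (by omega), hBd ℓ hℓ.2⟩
    have h2 := (card_le_card h1).trans (card_union_le _ _)
    have h3 : #((range (N + 1)).filter Nat.Prime) = Nat.primeCounting N := by
      unfold Nat.primeCounting Nat.primeCounting'
      rw [Nat.count_eq_card_filter_range]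
    rw [h3] at h2
    exact_mod_cast h2
  have hpN := (hY N (by omega)).2
  have hpx := (hY x hxY).1
  set c1 : ℝ := (Nat.primeCounting N : ℝ) with hc1
  set c2 : ℝ := (Nat.primeCounting x : ℝ) with hc2
  set c3 : ℝ := (#((range (x + 1)).filter (fun ℓ => ℓ ∈ Bd ∧ N ≤ ℓ)) : ℝ) with hc3
  set c4 : ℝ := (cM w E N b Bd : ℝ) with hc4
  set ph : ℝ := (Nat.totient (primorial w) : ℝ) with hph
  have hc1' : 0 ≤ c1 := by rw [hc1]; positivity
  have hεW : 144 * E ≤ W * ε := by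
    rw [div_le_iff₀ hε] at hWbig
    exact hWbig
  -- c1 * log x * W ≤ 36 E x
  have k1 : c1 * Real.log x * W ≤ 36 * E * x := by
    have h1 : c1 * Real.log x ≤ 2 * (c1 * Real.log N) := by nlinarith
    have h2 : c1 * Real.log x ≤ 4 * N := by linarith
    nlinarith
  have k2 : c1 * Real.log x ≤ ε / 4 * x := by
    have h1 : c1 * Real.log x * W * 4 ≤ ε * x * W := by nlinarith
    have h2 : (c1 * Real.log x * 4) * W ≤ (ε * x) * W := by nlinarith
    have h3 := le_of_mul_le_mul_right h2 hW0'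
    linarith
  have k3 : ε / 4 * x ≤ c3 * Real.log x := by
    have h1 : ε * c2 ≤ c1 + c3 := hcard.trans hsplit
    have h2 : ε * x ≤ 2 * Real.log x * (ε * c2) := by nlinarith
    have h3 : Real.log x * (ε * c2) ≤ Real.log x * (c1 + c3) :=
      mul_le_mul_of_nonneg_left h1 hlx.le
    nlinarith
  have k4 : ε / 4 * x ≤ 2 * Real.log N * (ph * c4) := by
    have h1 : c3 * Real.log x ≤ c3 * (2 * Real.log N) :=
      mul_le_mul_of_nonneg_left hlogN (by rw [hc3]; positivity)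
    have h2 : c3 * (2 * Real.log N) ≤ (ph * c4) * (2 * Real.log N) :=
      mul_le_mul_of_nonneg_right hb4 (by positivity)
    linarith
  rw [pr_eq, ← hW]
  have k5 : Real.log N * (ph / (W : ℝ)) * c4 = Real.log N * (ph * c4) / W := by ring
  rw [k5, le_div_iff₀ hW0']
  have k6 : ε / (72 * E) * N * W ≤ ε / 8 * x := by
    have h1 : ε / (72 * E) * N * W = ε / (72 * E) * (N * W) := by ring
    have h2 : ε / (72 * E) * (N * W) ≤ ε / (72 * E) * (9 * E * x) :=
      mul_le_mul_of_nonneg_left hNc (by positivity)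
    have h3 : ε / (72 * E) * (9 * E * x) = ε / 8 * x := by
      field_simp
      ring
    linarith
  linarith

end PoolPK
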