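import Pool.Agent.Work.MP_70e905_nt.PK.F.Core
import Pool.Agent.Work.MP_70e905_nt.PK.F.Win
import Pool.Agent.Work.MP_70e905_nt.PK.F.RelC
import Pool.Agent.Work.MP_70e905_nt.PK.F.Lift
import Pool.Agent.Work.MP_70e905_nt.PK.Blow
import Pool.Agent.Work.MP_70e905_nt.CL3.All3

/-!
# PK/F/Main : four multiples of almost all primes
-/

set_option autoImplicit false

namespace PoolPK

open Finset PoolPol

/-- a power of `N` is larger than a power of the logarithm -/
theorem pow_log (c ε : ℝ) (hc : 0 < c) (hε : 0 < ε) : ∃ N₁ : ℕ, ∀ N : ℕ, N₁ ≤ N →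
    (N : ℝ) ^ ((4 : ℝ) - ε) ≤ c * (N : ℝ) ^ 4 / Real.log N ^ 6 := by
  have h1 : (fun x : ℝ => Real.log x ^ (6 : ℝ)) =o[Filter.atTop] fun x : ℝ => x ^ ε :=
    isLittleO_log_rpow_rpow_atTop 6 hε
  have h2 := (h1.bound hc)
  have h3 := (tendsto_natCast_atTop_atTop (R := ℝ)).eventually h2
  obtain ⟨N₂, hN₂⟩ := Filter.eventually_atTop.1 h3
  refine ⟨max N₂ 3, fun N hN => ?_⟩
  have h4 := hN₂ N (le_trans (le_max_left _ _) hN)
  have hN3 : 3 ≤ N := le_trans (le_max_right _ _) hN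
  have hN3' : (3 : ℝ) ≤ N := by exact_mod_cast hN3
  have hlog : 0 < Real.log N := Real.log_pos (by linarith)
  have hNp : (0 : ℝ) < N := by linarith
  rw [Real.norm_of_nonneg (by positivity), Real.norm_of_nonneg (by positivity)] at h4
  have h5 : Real.log (N : ℝ) ^ (6 : ℝ) = Real.log N ^ 6 := by
    rw [show (6 : ℝ) = ((6 : ℕ) : ℝ) by norm_num, Real.rpow_natCast]
  rw [h5] at h4
  rw [le_div_iff₀ (by positivity)]
  calc (N : ℝ) ^ ((4 : ℝ) - ε) * Real.log N ^ 6 ≤ (N : ℝ) ^ ((4 : ℝ) - ε) * (c * (N : ℝ) ^ ε) :=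
        mul_le_mul_of_nonneg_left h4 (by positivity)
    _ = c * ((N : ℝ) ^ ((4 : ℝ) - ε) * (N : ℝ) ^ ε) := by ring
    _ = c * (N : ℝ) ^ 4 := by
        rw [← Real.rpow_add hNp]
        congr 1
        rw [show (4 : ℝ) - ε + ε = ((4 : ℕ) : ℝ) by push_cast; ring, Real.rpow_natCast]

theorem primorial_dvd {m n : ℕ} (h : m ≤ n) : primorial m ∣ primorial n := by
  unfold primorial
  refine Finset.prod_dvd_prod_of_subset _ _ _ ?_
  intro p hp
  rw [mem_filter, mem_range] at hp ⊢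
  exact ⟨by omega, hp.2⟩

/-- an integer class which is missed gives a natural class which is missed -/
theorem class_nat (q : ℕ) (hq : 0 < q) (e : Fin 4 → ℕ) (B : ℕ)
    (h : ∃ r : ℤ, ∀ i, ¬ (q : ℤ) ∣ r + e i * (B : ℤ)) : ∃ r : ℕ, ∀ i, ¬ q ∣ r + e i * B := by
  obtain ⟨r, hr⟩ := h
  have hq' : (0 : ℤ) < q := by exact_mod_cast hq
  refine ⟨(r % q).toNat, fun i hd => hr i ?_⟩
  have h1 : ((r % (q : ℤ)).toNat : ℤ) = r % q := Int.toNat_of_nonneg (Int.emod_nonneg _ hq'.ne')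
  have h2 : (q : ℤ) ∣ r % q + e i * (B : ℤ) := by
    rw [← h1]
    exact_mod_cast hd
  have h3 : r + e i * (B : ℤ) = q * (r / q) + (r % q + e i * (B : ℤ)) := by
    have := Int.emod_add_mul_ediv r q
    linarith
  rw [h3]
  exact dvd_add (Dvd.intro _ rfl) h2

theorem card_filter_eq (s : Finset ℕ) (p q : ℕ → Prop) {dp : DecidablePred p} {dq : DecidablePred q}
    (h : ∀ x, p x ↔ q x) : #(s.filter p) = #(s.filter q) :=
  congrArg card (Finset.filter_congr (fun x _ => h x))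

open Classical in
/-- **Four multiples of almost all primes.** -/
theorem almost (e : Fin 4 → ℕ) (he : StrictMono e) (α : ℕ) (hα : 0 < α) (β : ℤ)
    (h2 : ∀ u : ℤ, ¬ (2 : ℤ) ∣ u → ∃ r : ℤ, ∀ i, ¬ (2 : ℤ) ∣ r + e i * (α * u + β))
    (h3 : ∀ u : ℤ, ¬ (3 : ℤ) ∣ u → ∃ r : ℤ, ∀ i, ¬ (3 : ℤ) ∣ r + e i * (α * u + β))
    (ε : ℝ) (hε : 0 < ε) : ∃ X₀ : ℕ, ∀ x : ℕ, X₀ ≤ x →
      (#((range (x + 1)).filter (fun ℓ : ℕ => ℓ.Prime ∧ ∀ i k : Fin 4, i < k →
        ¬ {n : ℕ | (Nat.nth Nat.Prime (n + 1) : ℤ) =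
          Nat.nth Nat.Prime n + ((e k : ℤ) - e i) * (α * ℓ + β)}.Infinite)) : ℝ) ≤
        ε * (Nat.primeCounting x : ℝ) := by
  obtain ⟨L, hL, hP⟩ := cluP_polignac PoolCL.clusterPlus_three
  set E : ℕ := e 3 - e 0 with hE
  have hE1 : 1 ≤ E := by
    have : e 0 < e 3 := he (by decide)
    omega
  obtain ⟨δ₀, hδ₀, w₁, hwin⟩ := window ε hε E hE1
  set eZ : Fin 4 → ℤ := fun i => (e i : ℤ) with heZ
  have heZm : StrictMono eZ := fun i k hik => by
    simp only [heZ]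
    exact_mod_cast he hik
  obtain ⟨w₀, hrel⟩ := relc δ₀ hδ₀ eZ heZm E
  set w : ℕ := max (max w₀ w₁) (max (4 * L) 3) with hw
  obtain ⟨c, hc, N₁, hrel'⟩ := hrel w (le_trans (le_max_left _ _) (le_max_left _ _))
  obtain ⟨ε₁, hε₁, N₂, hblow⟩ :=
    Pool.Agent.Work.MP_70e905_nt.PK.blowFun.{0} 4 L
  obtain ⟨N₃, hpow⟩ := pow_log c ε₁ hc hε₁
  obtain ⟨X₀, hX₀⟩ := hwin w (le_trans (le_max_right _ _) (le_max_left _ _)) (β.natAbs + 1)
    (max (max N₁ N₂) (max N₃ (e 3 + 1)))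
  refine ⟨X₀, fun x hx => ?_⟩
  by_contra hcon
  rw [not_le] at hcon
  set Bd : Set ℕ := {ℓ : ℕ | ℓ.Prime ∧ ∀ i k : Fin 4, i < k →
        ¬ {n : ℕ | (Nat.nth Nat.Prime (n + 1) : ℤ) =
          Nat.nth Nat.Prime n + ((e k : ℤ) - e i) * (α * ℓ + β)}.Infinite} with hBd
  obtain ⟨N, b, hNp, hN₀, hb₀, hbN, hcop, hdens⟩ := hX₀ x hx Bd (fun ℓ hℓ => hℓ.1) (by
    refine le_trans hcon.le (le_of_eq ?_)
    exact congrArg (fun n : ℕ => (n : ℝ)) (card_filter_eq _ _ _ (fun ℓ => Iff.rfl)))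
  have : NeZero N := ⟨hNp.ne_zero⟩
  have : Fact N.Prime := ⟨hNp⟩
  have hN1 : N₁ ≤ N := le_trans (le_trans (le_max_left _ _) (le_max_left _ _)) hN₀
  have hN2 : N₂ ≤ N := le_trans (le_trans (le_max_right _ _) (le_max_left _ _)) hN₀
  have hN3 : N₃ ≤ N := le_trans (le_trans (le_max_left _ _) (le_max_right _ _)) hN₀
  have hN4 : e 3 < N := lt_of_lt_of_le (Nat.lt_succ_self _)
    (le_trans (le_trans (le_max_right _ _) (le_max_right _ _)) hN₀)
  have hH := hrel' N hN1 b Bd (fun ℓ hℓ => hℓ.1) hdens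
  have hcard : Fintype.card (ZMod N) = N := ZMod.card N
  obtain ⟨A, hA, hAH⟩ := hblow (ZMod N) (HS w E N b Bd eZ) (by rw [hcard]; exact hN2) (by
    rw [hcard]
    exact le_trans (by exact_mod_cast hpow N hN3) hH)
  -- the quotients
  set M : Fin 4 × Fin L → Fin 4 × Fin L → ℕ := fun s t =>
    ((A t.1 t.2 - A s.1 s.2) *
      Pool.Agent.Work.MP_70e905_nt.PK.dv N (fun i => (e i : ℤ)) (s.1, t.1)).val with hM
  have hCnd : ∀ s t : Fin 4 × Fin L, s.1 < t.1 → Cnd w E N b Bd (M s t) := by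
    intro s t hst
    have h4 := hAH (Function.update (Function.update (fun _ => ⟨0, hL⟩) s.1 s.2) t.1 t.2)
    rw [HS, mem_filter] at h4
    have h5 := h4.2 (s.1, t.1) (by
      rw [Pool.Agent.Work.MP_70e905_nt.PK.P, mem_filter]
      exact ⟨mem_univ _, hst⟩)
    have hne : s.1 ≠ t.1 := hst.ne
    simp only [Function.update_self, Function.update_of_ne hne] at h5
    exact h5
  obtain ⟨y, hy, hyinj⟩ := lift N e he hN4 L hL A hA M (fun s t _ => rfl)
    (fun s t hst => (hCnd s t hst).1)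
  -- the classes
  have hbβ : 0 ≤ (α : ℤ) * b + β := by
    have h5 : (β.natAbs : ℤ) + 1 ≤ b := by exact_mod_cast hb₀
    have h6 : -(β.natAbs : ℤ) ≤ β := by
      have := neg_abs_le β
      rwa [Int.abs_eq_natAbs] at this
    have h7 : (b : ℤ) ≤ α * b := by
      have : (1 : ℤ) ≤ α := by exact_mod_cast hα
      nlinarith
    linarith
  obtain ⟨B, hB⟩ := Int.eq_ofNat_of_zero_le hbβ
  have hw3 : 3 ≤ w := le_trans (le_max_right _ _) (le_max_right _ _)
  have hnd : ∀ q : ℕ, q.Prime → q ≤ w → ¬ (q : ℤ) ∣ (b : ℤ) := by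
    intro q hq hqw hd
    have hd' : q ∣ b := by exact_mod_cast hd
    have hqp : q ∣ primorial w := by
      unfold primorial
      exact Finset.dvd_prod_of_mem (fun q => q) (mem_filter.2 ⟨mem_range.2 (by omega), hq⟩)
    have := Nat.dvd_gcd hd' hqp
    rw [hcop] at this
    exact hq.one_lt.ne' (Nat.dvd_one.1 this)
  have hc2 := class_nat 2 (by norm_num) e B (by
    have := h2 b (by exact_mod_cast hnd 2 Nat.prime_two (by omega))
    rw [hB] at this
    exact_mod_cast this)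
  have hc3 := class_nat 3 (by norm_num) e B (by
    have := h3 b (by exact_mod_cast hnd 3 Nat.prime_three (by omega))
    rw [hB] at this
    exact_mod_cast this)
  have hW0 : 0 < α * primorial w := Nat.mul_pos hα (primorial_pos _)
  have h4L : 4 * L ≤ w := le_trans (le_max_left _ _) (le_max_right _ _)
  obtain ⟨s, t, hst, hpol⟩ := core hP he (B := B) hW0
    (Dvd.dvd.mul_left (primorial_dvd h4L) α) hc2 hc3 y M
    (fun s t hst => by
      have h5 := (hCnd s t hst).2.1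
      by_contra h0
      have h6 : M s t = 0 := by omega
      rw [h6] at h5
      omega) hy hyinj
  have hbad := (hCnd s t hst).2.2.2 s.1 t.1 hst
  apply hbad
  unfold Polignac at hpol
  convert hpol using 2
  ext n
  have h8 : ((e t.1 : ℤ) - e s.1) * (α * ((b + primorial w * M s t : ℕ) : ℤ) + β) =
      (((e t.1 - e s.1) * (B + α * primorial w * M s t) : ℕ) : ℤ) := by
    have h9 : e s.1 ≤ e t.1 := (he hst).le
    push_cast [Nat.cast_sub h9]
    have h10 : (B : ℤ) = α * b + β := by rw [hB]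
    rw [h10]
    ring
  constructor
  · intro hn
    have : (Nat.nth Nat.Prime (n + 1) : ℤ) = Nat.nth Nat.Prime n +
        (((e t.1 - e s.1) * (B + α * primorial w * M s t) : ℕ) : ℤ) := by
      rw [← h8]
      exact hn
    exact_mod_cast this
  · intro hn
    have : (Nat.nth Nat.Prime (n + 1) : ℤ) = Nat.nth Nat.Prime n +
        (((e t.1 - e s.1) * (B + α * primorial w * M s t) : ℕ) : ℤ) := by
      exact_mod_cast hn
    rw [← h8] at this
    exact this

end PoolPK
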